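import Mathlib

/-! Domb numbers: the three term recurrence and a single sum formula. -/

set_option autoImplicit false

namespace Pool.Agent.Helper484_Domb

open Finset

/-- The summand of the Domb numbers. -/
def F (n k : ℕ) : ℚ := (n.choose k : ℚ) ^ 2 * (k.centralBinom : ℚ) * ((n - k).centralBinom : ℚ)

theorem cB_succ (n : ℕ) : ((n : ℚ) + 1) * ((n + 1).centralBinom : ℚ)
    = 2 * (2 * n + 1) * (n.centralBinom : ℚ) := by
  have h := Nat.succ_mul_centralBinom_succ n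
  exact_mod_cast h

theorem L1 (n k : ℕ) (hk : k ≤ n + 1) :
    F n k * (2 * ((n : ℚ) + 1) ^ 2 * (2 * ((n : ℚ) - k) + 1))
      = F (n + 1) k * ((n : ℚ) + 1 - k) ^ 3 := by
  rcases Nat.lt_or_ge n k with h | h
  · have : k = n + 1 := by omega
    subst this
    have h0 : F n (n + 1) = 0 := by simp [F]
    rw [h0]
    push_cast
    ring
  · obtain ⟨l, rfl⟩ := Nat.exists_eq_add_of_le h
    have e1 : k + l + 1 - k = l + 1 := by omega
    have e2 : k + l - k = l := by omega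
    unfold F
    rw [e1, e2]
    have h1 := Nat.choose_mul_succ_eq (k + l) k
    rw [e1] at h1
    have h1' : ((k + l).choose k : ℚ) * ((k : ℚ) + l + 1)
        = ((k + l + 1).choose k : ℚ) * ((l : ℚ) + 1) := by exact_mod_cast h1
    have h2 := cB_succ l
    push_cast
    have e3 : ((k : ℚ) + l + 1 - k) = l + 1 := by ring
    have e4 : ((k : ℚ) + l - k) = l := by ring
    rw [e3, e4]
    calc ((k + l).choose k : ℚ) ^ 2 * (k.centralBinom : ℚ) * (l.centralBinom : ℚ) *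
          (2 * ((k : ℚ) + l + 1) ^ 2 * (2 * (l : ℚ) + 1))
        = (((k + l).choose k : ℚ) * ((k : ℚ) + l + 1)) ^ 2 * (k.centralBinom : ℚ) *
          (2 * (2 * (l : ℚ) + 1) * (l.centralBinom : ℚ)) := by ring
      _ = _ := by rw [h1', ← h2]; ring

theorem L2 (n k : ℕ) (hk : k ≤ n) :
    F n (k + 1) * (((k : ℚ) + 1) ^ 3 * (2 * ((n : ℚ) - k) - 1))
      = F n k * (((n : ℚ) - k) ^ 3 * (2 * k + 1)) := by
  obtain ⟨l, rfl⟩ := Nat.exists_eq_add_of_le hk
  rcases l with _ | l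
  · have h0 : F (k + 0) (k + 1) = 0 := by simp [F]
    rw [h0]
    push_cast
    ring
  · have e1 : k + (l + 1) - (k + 1) = l := by omega
    have e2 : k + (l + 1) - k = l + 1 := by omega
    unfold F
    rw [e1, e2]
    have h1 := Nat.choose_succ_right_eq (k + (l + 1)) k
    rw [e2] at h1
    have h1' : ((k + (l + 1)).choose (k + 1) : ℚ) * ((k : ℚ) + 1)
        = ((k + (l + 1)).choose k : ℚ) * ((l : ℚ) + 1) := by exact_mod_cast h1
    have h2 := cB_succ l
    have h3 := cB_succ k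
    push_cast
    have e3 : ((k : ℚ) + (l + 1) - k) = l + 1 := by ring
    rw [e3]
    calc ((k + (l + 1)).choose (k + 1) : ℚ) ^ 2 * ((k + 1).centralBinom : ℚ) *
          (l.centralBinom : ℚ) * (((k : ℚ) + 1) ^ 3 * (2 * ((l : ℚ) + 1) - 1))
        = (((k + (l + 1)).choose (k + 1) : ℚ) * ((k : ℚ) + 1)) ^ 2 *
          (((k : ℚ) + 1) * ((k + 1).centralBinom : ℚ)) * (1 / 2) *
          (2 * (2 * (l : ℚ) + 1) * (l.centralBinom : ℚ)) := by ring
      _ = _ := by rw [h1', ← h2, h3]; ring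

theorem odd_ne (a b : ℕ) (c : ℤ) : (2 * ((a : ℚ) - b) + (2 * c + 1)) ≠ 0 := by
  intro h
  have : (2 * ((a : ℤ) - b) + (2 * c + 1)) = 0 := by exact_mod_cast h
  omega

/-- The certificate polynomial. -/
def Q (n k : ℚ) : ℚ :=
  -(12 * n ^ 3 + 62 * n ^ 2 + 104 * n + 56) + (26 * n ^ 2 + 89 * n + 74) * k
    - 6 * (3 * n + 5) * k ^ 2 + 4 * k ^ 3

/-- The certificate. -/
def G (n k : ℕ) : ℚ :=
  (k : ℚ) ^ 3 * Q n k * F (n + 2) k / (((n : ℚ) + 2) ^ 2 * (2 * ((n : ℚ) - k) + 3))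

theorem key (n k : ℕ) (hk : k ≤ n + 2) :
    64 * ((n : ℚ) + 1) ^ 3 * F n k
      - 2 * (2 * (n : ℚ) + 3) * (5 * ((n : ℚ) + 1) ^ 2 + 5 * ((n : ℚ) + 1) + 2) * F (n + 1) k
      + ((n : ℚ) + 2) ^ 3 * F (n + 2) k = G n (k + 1) - G n k := by
  have o1 : (2 * ((n : ℚ) - k) + 1) ≠ 0 := by
    have := odd_ne n k 0
    simpa using this
  have o3 : (2 * ((n : ℚ) - k) + 3) ≠ 0 := by
    have := odd_ne n k 1
    norm_num at this ⊢
    exact this
  have n1 : ((n : ℚ) + 1) ≠ 0 := by positivity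
  have n2 : ((n : ℚ) + 2) ≠ 0 := by positivity
  have k1 : ((k : ℚ) + 1) ≠ 0 := by positivity
  have a1 : F (n + 1) k = F (n + 2) k * ((n : ℚ) + 2 - k) ^ 3 /
      (2 * ((n : ℚ) + 2) ^ 2 * (2 * ((n : ℚ) - k) + 3)) := by
    have h := L1 (n + 1) k hk
    rw [eq_div_iff (by positivity)]
    push_cast at h
    calc _ = F (n + 1) k * (2 * ((n : ℚ) + 1 + 1) ^ 2 * (2 * ((n : ℚ) + 1 - k) + 1)) := by ring
      _ = _ := by rw [h]; ring
  have a0 : F n k = F (n + 1) k * ((n : ℚ) + 1 - k) ^ 3 /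
      (2 * ((n : ℚ) + 1) ^ 2 * (2 * ((n : ℚ) - k) + 1)) := by
    rcases Nat.lt_or_ge (n + 1) k with h' | h'
    · have e1 : F n k = 0 := by
        unfold F
        rw [Nat.choose_eq_zero_of_lt (by omega)]
        simp
      have e2 : F (n + 1) k = 0 := by
        unfold F
        rw [Nat.choose_eq_zero_of_lt (by omega)]
        simp
      rw [e1, e2]
      simp
    · have h := L1 n k h'
      rw [eq_div_iff (by positivity)]
      exact h
  have a3 : F (n + 2) (k + 1) = F (n + 2) k * (((n : ℚ) + 2 - k) ^ 3 * (2 * k + 1)) /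
      (((k : ℚ) + 1) ^ 3 * (2 * ((n : ℚ) - k) + 3)) := by
    have h := L2 (n + 2) k hk
    rw [eq_div_iff (by positivity)]
    push_cast at h
    calc _ = F (n + 2) (k + 1) * (((k : ℚ) + 1) ^ 3 * (2 * ((n : ℚ) + 2 - k) - 1)) := by ring
      _ = _ := by rw [h]
  unfold G
  rw [a0, a1, a3]
  have o1' : (2 * ((n : ℚ) - ((k + 1 : ℕ) : ℚ)) + 3) ≠ 0 := by
    have e : (2 * ((n : ℚ) - ((k + 1 : ℕ) : ℚ)) + 3) = (2 * ((n : ℚ) - k) + 1) := by
      push_cast; ring
    rw [e]; exact o1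
  unfold Q
  push_cast at o1' ⊢
  generalize (n : ℚ) = N at *
  generalize (k : ℚ) = K at *
  have e : (2 * (N - (K + 1)) + 3) = (2 * (N - K) + 1) := by ring
  rw [e]
  field_simp
  ring

/-- The Domb numbers, as rational numbers. -/
def dombQ (n : ℕ) : ℚ := ∑ k ∈ range (n + 1), F n k

theorem dombQ_ext (n m : ℕ) (h : n ≤ m) : dombQ n = ∑ k ∈ range (m + 1), F n k := by
  unfold dombQ
  apply Finset.sum_subset
  · intro x hx
    simp only [mem_range] at hx ⊢
    omega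
  · intro x _ hx
    simp only [mem_range, not_lt] at hx
    unfold F
    rw [Nat.choose_eq_zero_of_lt (by omega)]
    simp

theorem rec (n : ℕ) :
    ((n : ℚ) + 2) ^ 3 * dombQ (n + 2)
      = 2 * (2 * (n : ℚ) + 3) * (5 * ((n : ℚ) + 1) ^ 2 + 5 * ((n : ℚ) + 1) + 2) * dombQ (n + 1)
        - 64 * ((n : ℚ) + 1) ^ 3 * dombQ n := by
  have h : ∑ k ∈ range (n + 2 + 1), (64 * ((n : ℚ) + 1) ^ 3 * F n k
      - 2 * (2 * (n : ℚ) + 3) * (5 * ((n : ℚ) + 1) ^ 2 + 5 * ((n : ℚ) + 1) + 2) * F (n + 1) k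
      + ((n : ℚ) + 2) ^ 3 * F (n + 2) k) = 0 := by
    have h1 : ∀ k ∈ range (n + 2 + 1), (64 * ((n : ℚ) + 1) ^ 3 * F n k
      - 2 * (2 * (n : ℚ) + 3) * (5 * ((n : ℚ) + 1) ^ 2 + 5 * ((n : ℚ) + 1) + 2) * F (n + 1) k
      + ((n : ℚ) + 2) ^ 3 * F (n + 2) k) = G n (k + 1) - G n k := by
      intro k hk
      apply key
      simp only [mem_range] at hk
      omega
    rw [sum_congr rfl h1, sum_range_sub]
    have e1 : G n (n + 2 + 1) = 0 := by
      unfold G F
      rw [Nat.choose_eq_zero_of_lt (by omega)]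
      simp
    have e2 : G n 0 = 0 := by simp [G]
    rw [e1, e2]
    ring
  rw [sum_add_distrib, sum_sub_distrib, ← mul_sum, ← mul_sum, ← mul_sum,
    ← dombQ_ext n (n + 2) (by omega), ← dombQ_ext (n + 1) (n + 2) (by omega),
    ← dombQ_ext (n + 2) (n + 2) (by omega)] at h
  linarith

end Pool.Agent.Helper484_Domb
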