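import Pool.Agent.helper484_domb.Single

/-! The telescoping sum, and the difference `D_m - 4 D_{m-1}`. -/

set_option autoImplicit false

namespace Pool.Agent.Helper484_Domb

open Finset

/-- `s_n = ∑ C(n,k)² C(2k,k) C(2(n-k),n-k)`, the Domb numbers. -/
def s (n : ℕ) : ℕ :=
  ∑ k ∈ range (n + 1), (n.choose k) ^ 2 * (2 * k).choose k * (2 * (n - k)).choose (n - k)

theorem s_eq (n : ℕ) : (s n : ℚ) = dombQ n := by
  unfold s dombQ F
  push_cast
  rfl

theorem tele (m : ℕ) : 6 * ∑ n ∈ range (m + 1), (3 * (n : ℚ) ^ 2 + n) * 16 ^ (m - n) * dombQ n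
    = ((m : ℚ) + 1) ^ 3 * (dombQ (m + 1) - 4 * dombQ m) := by
  induction m with
  | zero =>
    norm_num [dombQ, F, sum_range_succ, Nat.centralBinom, Nat.choose]
  | succ m ih =>
    rw [sum_range_succ, mul_add]
    have e : ∑ n ∈ range (m + 1), (3 * (n : ℚ) ^ 2 + n) * 16 ^ (m + 1 - n) * dombQ n
        = 16 * ∑ n ∈ range (m + 1), (3 * (n : ℚ) ^ 2 + n) * 16 ^ (m - n) * dombQ n := by
      rw [mul_sum]
      apply sum_congr rfl
      intro n hn
      have : m + 1 - n = m - n + 1 := by
        simp only [mem_range] at hn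
        omega
      rw [this, pow_succ]
      ring
    rw [e]
    have h := rec m
    have h2 : 6 * (16 * ∑ n ∈ range (m + 1), (3 * (n : ℚ) ^ 2 + n) * 16 ^ (m - n) * dombQ n)
        = 16 * (((m : ℚ) + 1) ^ 3 * (dombQ (m + 1) - 4 * dombQ m)) := by rw [← ih]; ring
    rw [h2, Nat.sub_self, pow_zero]
    push_cast
    linear_combination -h

/-- The terms of `a_m`, `m = M + 2`. -/
def A (M i : ℕ) : ℚ :=
  4 ^ M / (4 * 16 ^ i) * ((i + 1).centralBinom : ℚ) * ((M + i + 2).choose (i + 1) : ℚ) *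
    (M.choose (2 * i) : ℚ) * (catalan i : ℚ)

theorem multinom (M i : ℕ) : ((i + 1).centralBinom : ℚ) * ((3 * (i + 1)).choose (i + 1) : ℚ) *
    ((M + i + 2).choose (3 * i + 2) : ℚ) = 3 * ((M : ℚ) + 1) * ((M + i + 2).choose (i + 1) : ℚ) *
    (M.choose (2 * i) : ℚ) * (catalan i : ℚ) := by
  rcases Nat.lt_or_ge M (2 * i) with h | h
  · rw [Nat.choose_eq_zero_of_lt h, Nat.choose_eq_zero_of_lt (by omega : M + i + 2 < 3 * i + 2)]
    simp
  · obtain ⟨l, rfl⟩ := Nat.exists_eq_add_of_le h
    have a1 : ((i + 1).centralBinom : ℚ) = ((2 * i + 2).factorial : ℚ) /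
        ((i + 1).factorial * (i + 1).factorial) := by
      unfold Nat.centralBinom
      have e : 2 * (i + 1) = (i + 1) + (i + 1) := by ring
      rw [e, Nat.cast_add_choose]
      congr 3
      ring
    have a2 : ((3 * (i + 1)).choose (i + 1) : ℚ) = ((3 * i + 3).factorial : ℚ) /
        ((i + 1).factorial * (2 * i + 2).factorial) := by
      have e : 3 * (i + 1) = (i + 1) + (2 * i + 2) := by ring
      rw [e, Nat.cast_add_choose]
      congr 3
      ring
    have a3 : ((2 * i + l + i + 2).choose (3 * i + 2) : ℚ) = ((3 * i + 2 + l).factorial : ℚ) /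
        ((3 * i + 2).factorial * l.factorial) := by
      have e : 2 * i + l + i + 2 = (3 * i + 2) + l := by ring
      rw [e, Nat.cast_add_choose]
    have a4 : ((2 * i + l + i + 2).choose (i + 1) : ℚ) = ((3 * i + 2 + l).factorial : ℚ) /
        ((i + 1).factorial * (2 * i + l + 1).factorial) := by
      have e : 2 * i + l + i + 2 = (i + 1) + (2 * i + l + 1) := by ring
      rw [e, Nat.cast_add_choose]
      congr 3
      ring
    have a5 : ((2 * i + l).choose (2 * i) : ℚ) = ((2 * i + l).factorial : ℚ) /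
        ((2 * i).factorial * l.factorial) := by
      rw [Nat.cast_add_choose]
    have a6 : (catalan i : ℚ) = ((2 * i).factorial : ℚ) / (i.factorial * i.factorial) /
        ((i : ℚ) + 1) := by
      have h1 := succ_mul_catalan_eq_centralBinom i
      have h2 : ((i : ℚ) + 1) * (catalan i : ℚ) = (i.centralBinom : ℚ) := by exact_mod_cast h1
      rw [eq_div_iff (by positivity), mul_comm, h2]
      unfold Nat.centralBinom
      have e : 2 * i = i + i := by ring
      rw [e, Nat.cast_add_choose]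
    have f1 : ((3 * i + 3).factorial : ℚ) = (3 * (i : ℚ) + 3) * ((3 * i + 2).factorial : ℚ) := by
      rw [show 3 * i + 3 = 3 * i + 2 + 1 by ring, Nat.factorial_succ]
      push_cast
      ring
    have f2 : ((i + 1).factorial : ℚ) = ((i : ℚ) + 1) * (i.factorial : ℚ) := by
      rw [Nat.factorial_succ]
      push_cast
      ring
    have f3 : ((2 * i + l + 1).factorial : ℚ)
        = (2 * (i : ℚ) + l + 1) * ((2 * i + l).factorial : ℚ) := by
      rw [Nat.factorial_succ]
      push_cast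
      ring
    rw [a1, a2, a3, a4, a5, a6, f1, f2, f3]
    have g1 : (i.factorial : ℚ) ≠ 0 := by positivity
    have g2 : ((2 * i + 2).factorial : ℚ) ≠ 0 := by positivity
    have g3 : ((3 * i + 2).factorial : ℚ) ≠ 0 := by positivity
    have g4 : (l.factorial : ℚ) ≠ 0 := by positivity
    have g5 : ((2 * i + l).factorial : ℚ) ≠ 0 := by positivity
    have g6 : ((2 * i).factorial : ℚ) ≠ 0 := by positivity
    have g7 : ((i : ℚ) + 1) ≠ 0 := by positivity
    have g8 : (2 * (i : ℚ) + l + 1) ≠ 0 := by positivity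
    push_cast
    field_simp

theorem diff_term (M i : ℕ) : H (M + 2) (i + 1) - 4 * H (M + 1) (i + 1)
    = 12 * ((M : ℚ) + 1) * A M i := by
  have h := multinom M i
  have hp : ((M + 2 + (i + 1)).choose (3 * (i + 1)) : ℚ)
      = ((M + i + 2).choose (3 * i + 2) : ℚ) + ((M + 1 + (i + 1)).choose (3 * (i + 1)) : ℚ) := by
    have e1 : M + 2 + (i + 1) = (M + i + 2) + 1 := by ring
    have e2 : 3 * (i + 1) = (3 * i + 2) + 1 := by ring
    have e3 : M + 1 + (i + 1) = M + i + 2 := by ring
    rw [e1, e2, e3, Nat.choose_succ_succ]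
    push_cast
    ring
  unfold H A
  rw [hp]
  have e : (4 : ℚ) ^ (M + 2) = 16 * 4 ^ M := by rw [pow_add]; ring
  have e' : (4 : ℚ) ^ (M + 1) = 4 * 4 ^ M := by rw [pow_add]; ring
  have e'' : (16 : ℚ) ^ (i + 1) = 16 * 16 ^ i := by rw [pow_add]; ring
  rw [e, e', e'']
  have hne : (16 : ℚ) ^ i ≠ 0 := by positivity
  calc _ = 4 ^ M / 16 ^ i * ((i + 1).centralBinom : ℚ) * (((i + 1).centralBinom : ℚ) *
      ((3 * (i + 1)).choose (i + 1) : ℚ) * ((M + i + 2).choose (3 * i + 2) : ℚ)) := by
        field_simp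
        ring
    _ = _ := by
        rw [h]
        field_simp
        ring

theorem diff (M : ℕ) : dombQ (M + 2) - 4 * dombQ (M + 1)
    = 12 * ((M : ℚ) + 1) * ∑ i ∈ range (M + 1), A M i := by
  rw [domb_eq_sing, domb_eq_sing, sing_ext (M + 2) (M + 2) le_rfl,
    sing_ext (M + 1) (M + 2) (by omega), mul_sum, ← sum_sub_distrib, sum_range_succ']
  have h0 : H (M + 2) 0 - 4 * H (M + 1) 0 = 0 := by
    unfold H
    simp
    ring
  rw [h0, add_zero, sum_congr rfl (fun i _ => diff_term M i), ← mul_sum, sum_range_succ]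
  have : A M (M + 1) = 0 := by
    unfold A
    rw [Nat.choose_eq_zero_of_lt (by omega : M < 2 * (M + 1))]
    simp
  rw [this, add_zero]

theorem tele' (M : ℕ) :
    ∑ n ∈ range (M + 2), (3 * (n : ℚ) ^ 2 + n) * 16 ^ (M + 1 - n) * dombQ n
    = 2 * ((M : ℚ) + 2) ^ 3 * ((M : ℚ) + 1) * ∑ i ∈ range (M + 1), A M i := by
  have h := tele (M + 1)
  rw [diff] at h
  push_cast at h
  linarith

end Pool.Agent.Helper484_Domb
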