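import Pool.Agent.helper484_domb.Morley
import Pool.Agent.helper484_domb.Tele

/-! The Domb numbers `s_p` and `s_{p-1}` modulo `p³`. -/

set_option autoImplicit false

namespace Pool.Agent.Helper484_Domb

open Finset Pool.Agent.Helper484_HSum

variable {p n : ℕ}

theorem s_cb (n : ℕ) : s n = ∑ k ∈ range (n + 1),
    (n.choose k) ^ 2 * k.centralBinom * (n - k).centralBinom := rfl

/-- Wolstenholme: `C(2p,p) = 2` modulo `p³`. -/
theorem wolst (hp : p.Prime) (h3 : 3 < p) : (p.centralBinom : ZMod (p ^ 3)) = 2 := by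
  have h0 := powsum hp 2 2 (by
    intro hd
    have := Nat.le_of_dvd (by norm_num) hd
    omega)
  have h0' : (p : ZMod (p ^ 3)) ^ 2 * ∑ j ∈ Ico 1 p, iv p j ^ 2 = 0 := h0
  have h1 : p.centralBinom = ∑ i ∈ range (p + 1), (p.choose i) ^ 2 := by
    rw [Nat.sum_range_choose_sq]
    rfl
  have hP : (p : ZMod (p ^ 3)) ^ 3 = 0 := P3
  rw [h1, sum_range_succ, ← Finset.sum_range_add_sum_Ico _ (show 1 ≤ p by omega)]
  simp only [range_one, sum_singleton, Nat.choose_zero_right, Nat.choose_self, one_pow]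
  push_cast
  have h2 : ∑ k ∈ Ico 1 p, ((p.choose k : ℕ) : ZMod (p ^ 3)) ^ 2
      = (p : ZMod (p ^ 3)) ^ 2 * ∑ j ∈ Ico 1 p, iv p j ^ 2 := by
    rw [mul_sum]
    apply sum_congr rfl
    intro k hk
    rw [mem_Ico] at hk
    obtain ⟨j, rfl⟩ : ∃ j, k = j + 1 := ⟨k - 1, by omega⟩
    have a := mul_iv hp (j := j + 1) (by omega) (by omega)
    have b := Nat.add_one_mul_choose_eq (p - 1) j
    have hp1 : p - 1 + 1 = p := by omega
    rw [hp1] at b
    have b' := congrArg (Nat.cast : ℕ → ZMod (p ^ 3)) b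
    rw [Nat.cast_mul, Nat.cast_mul, choose_prod hp j (by omega)] at b'
    have c : ∃ w : ZMod (p ^ 3), (∏ i ∈ range j, (1 - (p : ZMod (p ^ 3)) * iv p (i + 1))) ^ 2
        = 1 + (p : ZMod (p ^ 3)) * w := by
      clear b b' a hk
      induction j with
      | zero => exact ⟨0, by simp⟩
      | succ j ih =>
        obtain ⟨w, hw⟩ := ih
        rw [prod_range_succ, mul_pow, hw]
        exact ⟨w * (1 - (p : ZMod (p ^ 3)) * iv p (j + 1)) ^ 2 +
          (-2 * iv p (j + 1) + (p : ZMod (p ^ 3)) * iv p (j + 1) ^ 2), by ring⟩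
    obtain ⟨w, hw⟩ := c
    have hsq : ((-1 : ZMod (p ^ 3)) ^ j) ^ 2 = 1 := by
      rw [← pow_mul, mul_comm, pow_mul]
      norm_num
    generalize ((-1 : ZMod (p ^ 3)) ^ j) = e at *
    generalize (∏ i ∈ range j, (1 - (p : ZMod (p ^ 3)) * iv p (i + 1))) = X at *
    generalize iv p (j + 1) = u at *
    generalize ((j + 1 : ℕ) : ZMod (p ^ 3)) = J at *
    generalize ((p.choose (j + 1) : ℕ) : ZMod (p ^ 3)) = C at *
    generalize (p : ZMod (p ^ 3)) = P at *
    have h5 : C = P * e * X * u := by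
      linear_combination (-C) * a - u * b'
    rw [h5]
    linear_combination (P ^ 2 * u ^ 2 * X ^ 2) * hsq + P ^ 2 * u ^ 2 * hw + u ^ 2 * w * hP
  rw [h2, h0']
  norm_num

theorem p_dvd_cb (hp : p.Prime) {k : ℕ} (h1 : p ≤ 2 * k) (h2 : k < p) : p ∣ k.centralBinom := by
  have h3 : p ∣ (2 * k).factorial := (hp.dvd_factorial).2 h1
  have h4 : k.centralBinom * (k.factorial * k.factorial) = (2 * k).factorial := by
    unfold Nat.centralBinom
    have := Nat.choose_mul_factorial_mul_factorial (show k ≤ 2 * k by omega)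
    have e : 2 * k - k = k := by omega
    rw [e] at this
    rw [← this]
    ring
  rw [← h4] at h3
  rcases (hp.dvd_mul).1 h3 with h | h
  · exact h
  · exfalso
    rcases (hp.dvd_mul).1 h with h | h
    · have := (hp.dvd_factorial).1 h
      omega
    · have := (hp.dvd_factorial).1 h
      omega

/-- `s_p = 4` modulo `p³`. -/
theorem s_p (hp : p.Prime) (h3 : 3 < p) : (s p : ZMod (p ^ 3)) = 4 := by
  rw [s_cb, sum_range_succ, ← Finset.sum_range_add_sum_Ico _ (show 1 ≤ p by omega)]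
  simp only [range_one, sum_singleton, Nat.choose_zero_right, Nat.choose_self, one_pow,
    Nat.sub_self, Nat.sub_zero, Nat.centralBinom_zero]
  push_cast
  rw [wolst hp h3]
  have h2 : ∑ k ∈ Ico 1 p, ((p.choose k : ℕ) : ZMod (p ^ 3)) ^ 2 *
      (k.centralBinom : ZMod (p ^ 3)) * ((p - k).centralBinom : ZMod (p ^ 3)) = 0 := by
    apply sum_eq_zero
    intro k hk
    rw [mem_Ico] at hk
    have a : p ∣ p.choose k := hp.dvd_choose_self (by omega) (by omega)
    have b : p ∣ k.centralBinom * (p - k).centralBinom := by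
      rcases Nat.lt_or_ge (2 * k) p with h | h
      · exact Dvd.dvd.mul_left (p_dvd_cb hp (by omega) (by omega)) _
      · exact Dvd.dvd.mul_right (p_dvd_cb hp h (by omega)) _
    have c : p ^ 3 ∣ (p.choose k) ^ 2 * (k.centralBinom * (p - k).centralBinom) := by
      have : p ^ 3 = p ^ 2 * p := by ring
      rw [this]
      exact mul_dvd_mul (pow_dvd_pow_of_dvd a 2) b
    have d := (ZMod.natCast_eq_zero_iff _ _).2 c
    push_cast at d
    rw [mul_assoc]
    exact d
  rw [h2]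
  norm_num

theorem tk (hp : p.Prime) (h3 : 3 < p) (hn : p = 2 * n + 1) (k : ℕ) (hk : k < n) :
    (k.centralBinom : ZMod (p ^ 3)) * ((p - 1 - k).centralBinom : ZMod (p ^ 3)) *
      ((2 * k + 1 : ℕ) : ZMod (p ^ 3))
    = -((p : ZMod (p ^ 3)) * (1 + 2 * (p : ZMod (p ^ 3)) * Om p (k + 1) -
        (p : ZMod (p ^ 3)) * Hm p k)) := by
  have hP : (p : ZMod (p ^ 3)) ^ 3 = 0 := P3
  induction k with
  | zero =>
    have h := Nat.succ_mul_centralBinom_succ (p - 1)
    have hp1 : p - 1 + 1 = p := by omega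
    rw [hp1] at h
    have h' := congrArg (Nat.cast : ℕ → ZMod (p ^ 3)) h
    push_cast at h'
    rw [wolst hp h3] at h'
    have e : ((p - 1 : ℕ) : ZMod (p ^ 3)) = (p : ZMod (p ^ 3)) - 1 := by
      rw [Nat.cast_sub (by omega)]
      simp
    rw [e] at h'
    have e1 : Om p (0 + 1) = 1 := by
      have := mul_iv hp (j := 1) (by omega) (by omega)
      unfold Om
      simp only [zero_add, range_one, sum_singleton, mul_zero]
      simpa using this
    have e2 : Hm p 0 = 0 := by simp [Hm]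
    rw [e1, e2]
    simp only [Nat.centralBinom_zero, Nat.sub_zero, mul_zero, zero_add, Nat.cast_one, mul_one,
      one_mul, sub_zero]
    obtain ⟨h, hh⟩ := exists_half hp (by omega)
    generalize ((p - 1).centralBinom : ZMod (p ^ 3)) = C at *
    generalize (p : ZMod (p ^ 3)) = P at *
    -- h' : P * 2 = 2 * (2 * (P - 1) + 1) * C
    have h4 : (1 - 2 * P) * C = -P := by
      linear_combination h * h' - ((1 - 2 * P) * C + P) * hh
    linear_combination (1 + 2 * P + 4 * P ^ 2) * h4 + (8 * C - 4) * hP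
  | succ k ih =>
    have ih := ih (by omega)
    have h1 := Nat.succ_mul_centralBinom_succ k
    have h2 := Nat.succ_mul_centralBinom_succ (p - 1 - (k + 1))
    have e0 : p - 1 - (k + 1) + 1 = p - 1 - k := by omega
    rw [e0] at h2
    have h1' := congrArg (Nat.cast : ℕ → ZMod (p ^ 3)) h1
    have h2' := congrArg (Nat.cast : ℕ → ZMod (p ^ 3)) h2
    rw [Nat.cast_mul, Nat.cast_mul] at h1'
    rw [Nat.cast_mul, Nat.cast_mul] at h2'
    have f1 : ((p - 1 - k : ℕ) : ZMod (p ^ 3)) = (p : ZMod (p ^ 3)) - ((k + 1 : ℕ) : ZMod (p ^ 3)) := by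
      rw [eq_sub_iff_add_eq, ← Nat.cast_add]
      congr 1
      omega
    have f2 : ((2 * (2 * (p - 1 - (k + 1)) + 1) : ℕ) : ZMod (p ^ 3))
        = 2 * (2 * (p : ZMod (p ^ 3)) - ((2 * (k + 1) + 1 : ℕ) : ZMod (p ^ 3))) := by
      have : 2 * (p - 1 - (k + 1)) + 1 + (2 * (k + 1) + 1) = 2 * p := by omega
      have h4 := congrArg (Nat.cast : ℕ → ZMod (p ^ 3)) this
      push_cast at h4 ⊢
      linear_combination 2 * h4
    have f3 : ((2 * (2 * k + 1) : ℕ) : ZMod (p ^ 3)) = 2 * ((2 * k + 1 : ℕ) : ZMod (p ^ 3)) := by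
      push_cast
      ring
    rw [f1, f2] at h2'
    rw [f3] at h1'
    have g1 : Om p (k + 1 + 1) = Om p (k + 1) + iv p (2 * (k + 1) + 1) := by
      unfold Om
      rw [sum_range_succ]
    have g2 : Hm p (k + 1) = Hm p k + iv p (k + 1) := by
      unfold Hm
      rw [sum_range_succ]
    rw [g1, g2]
    have a1 := mul_iv hp (j := k + 1) (by omega) (by omega)
    have a2 := mul_iv hp (j := 2 * (k + 1) + 1) (by omega) (by omega)
    obtain ⟨h, hh⟩ := exists_half hp (by omega)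
    generalize iv p (k + 1) = u at *
    generalize iv p (2 * (k + 1) + 1) = v at *
    generalize ((k + 1 : ℕ) : ZMod (p ^ 3)) = J at *
    generalize ((2 * (k + 1) + 1 : ℕ) : ZMod (p ^ 3)) = L at *
    generalize ((2 * k + 1 : ℕ) : ZMod (p ^ 3)) = K at *
    generalize (k.centralBinom : ZMod (p ^ 3)) = A0 at *
    generalize ((k + 1).centralBinom : ZMod (p ^ 3)) = A1 at *
    generalize ((p - 1 - k).centralBinom : ZMod (p ^ 3)) = B0 at *
    generalize ((p - 1 - (k + 1)).centralBinom : ZMod (p ^ 3)) = B1 at *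
    generalize Om p (k + 1) = O at *
    generalize Hm p k = H at *
    generalize (p : ZMod (p ^ 3)) = P at *
    -- h1' : J * A1 = 2 * K * A0,  h2' : (P - J) * B0 = 2 * (2 * P - L) * B1
    -- ih : A0 * B0 * K = -(P * (1 + 2 P O - P H))
    -- goal : A1 * B1 * L = -(P * (1 + 2 P (O + v) - P (H + u)))
    have r1 : A1 = 2 * K * A0 * u := by
      linear_combination (-A1) * a1 + u * h1'
    have r2 : (1 - 2 * P * v) * (B1 * L) = h * (J - P) * B0 := by
      linear_combination h * h2' + (2 * P * B1 - L * B1) * hh - 2 * P * B1 * a2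
    have r3 : B1 * L = (1 + 2 * P * v + 4 * P ^ 2 * v ^ 2) * (h * (J - P) * B0) := by
      linear_combination (1 + 2 * P * v + 4 * P ^ 2 * v ^ 2) * r2 + (8 * v ^ 3 * B1 * L) * hP
    have r4 : A1 * B1 * L = (1 + 2 * P * v + 4 * P ^ 2 * v ^ 2) * (1 - P * u) * (A0 * B0 * K) := by
      have : A1 * B1 * L = A1 * (B1 * L) := by ring
      rw [this, r3, r1]
      linear_combination ((1 + 2 * P * v + 4 * P ^ 2 * v ^ 2) * (K * A0 * B0)) *
        ((1 - P * u) * hh + 2 * h * a1)
    rw [r4, ih]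
    linear_combination (-((4 * v ^ 2 - 2 * v * u + 2 * v * (2 * O - H) - u * (2 * O - H))
      + P * (4 * v ^ 2 * (2 * O - H) - 4 * v ^ 2 * u - 2 * v * u * (2 * O - H))
      - P ^ 2 * 4 * v ^ 2 * u * (2 * O - H))) * hP

theorem choose_sq_P (hp : p.Prime) (m : ℕ) (hm : m < p) :
    (p : ZMod (p ^ 3)) * (((p - 1).choose m : ℕ) : ZMod (p ^ 3)) ^ 2
      = (p : ZMod (p ^ 3)) * (1 - 2 * (p : ZMod (p ^ 3)) * Hm p m) := by
  have hP : (p : ZMod (p ^ 3)) ^ 3 = 0 := P3
  induction m with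
  | zero => simp [Hm]
  | succ m ih =>
    have ih := ih (by omega)
    have h := choose_pred hp 3 (j := m + 1) (by omega) hm
    have g2 : Hm p (m + 1) = Hm p m + iv p (m + 1) := by
      unfold Hm
      rw [sum_range_succ]
    rw [h, Nat.add_sub_cancel, g2]
    have e : ((m + 1 : ℕ) : ZMod (p ^ 3))⁻¹ = iv p (m + 1) := rfl
    rw [e]
    generalize iv p (m + 1) = u at *
    generalize (((p - 1).choose m : ℕ) : ZMod (p ^ 3)) = C at *
    generalize Hm p m = H at *
    generalize (p : ZMod (p ^ 3)) = P at *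
    linear_combination (1 - P * u) ^ 2 * ih + (u ^ 2 + 4 * H * u - 2 * P * H * u ^ 2) * hP

theorem sum_sym {M : Type*} [AddCommMonoid M] (f : ℕ → M) (n : ℕ)
    (hf : ∀ k, k ≤ 2 * n → f k = f (2 * n - k)) :
    ∑ k ∈ range (2 * n + 1), f k = f n + (∑ k ∈ range n, f k + ∑ k ∈ range n, f k) := by
  have e : 2 * n + 1 = n + (n + 1) := by ring
  rw [e, sum_range_add, sum_range_succ' (fun x => f (n + x))]
  have h1 : ∑ k ∈ range n, f (n + (k + 1)) = ∑ k ∈ range n, f k := by
    rw [← sum_range_reflect]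
    apply sum_congr rfl
    intro i hi
    simp only [mem_range] at hi
    rw [hf (n + (n - 1 - i + 1)) (by omega)]
    congr 1
    omega
  rw [h1, add_zero]
  abel

/-- `s_{p-1} = 64^{p-1}` modulo `p³`. -/
theorem s_pred (hp : p.Prime) (h3 : 3 < p) (hn : p = 2 * n + 1) :
    (s (p - 1) : ZMod (p ^ 3)) = (4 ^ n) ^ 6 := by
  have hP : (p : ZMod (p ^ 3)) ^ 3 = 0 := P3
  obtain ⟨t, ht⟩ : ∃ t : ZMod (p ^ 3), (4 : ZMod (p ^ 3)) ^ n = 1 + t :=
    ⟨4 ^ n - 1, by ring⟩
  obtain ⟨m1, m2, m3, m4, m5⟩ := harm_main hp h3 hn t ht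
  obtain ⟨h, hh⟩ := exists_half hp (by omega)
  have mO := PO hp h3 hn h hh
  have z1 := P2H2 hp h3 hn
  have z2 := P2O2 hp h3 hn
  have sp := sum_pairs (fun i => iv p (2 * i + 1)) n
  have cv := conv hp n (by omega)
  have e : p - 1 = 2 * n := by omega
  rw [s_cb]
  have hs := sum_sym (fun k => ((p - 1).choose k) ^ 2 * k.centralBinom * (p - 1 - k).centralBinom) n
    (by
      intro k hk
      have e1 : p - 1 - (2 * n - k) = k := by omega
      have e2 : p - 1 - k = 2 * n - k := by omega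
      rw [e1, e2, e, Nat.choose_symm hk]
      ring)
  have e3 : p - 1 + 1 = 2 * n + 1 := by omega
  rw [e3, hs]
  have e4 : p - 1 - n = n := by omega
  rw [e4]
  have e5 : (p - 1).choose n = n.centralBinom := by rw [e]; rfl
  rw [e5]
  push_cast
  rw [m2]
  have key : ∀ k ∈ range n, (((p - 1).choose k : ℕ) : ZMod (p ^ 3)) ^ 2 *
      (k.centralBinom : ZMod (p ^ 3)) * ((p - 1 - k).centralBinom : ZMod (p ^ 3))
      = -((p : ZMod (p ^ 3)) * iv p (2 * k + 1))
        - 2 * ((p : ZMod (p ^ 3)) ^ 2 * (iv p (2 * k + 1) * Om p (k + 1)))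
        - 3 * h * ((p : ZMod (p ^ 3)) ^ 2 * (Hm p k * iv p (n - k))) := by
    intro k hk
    simp only [mem_range] at hk
    have a1 := tk hp h3 hn k hk
    have a2 := choose_sq_P hp k (by omega)
    have a3 := mul_iv hp (j := 2 * k + 1) (by omega) (by omega)
    have a4 := iv_reflect hp (j := 2 * (n - k)) (by omega) (by omega)
    have a5 := iv_double hp h hh (j := n - k) (by omega) (by omega)
    have e6 : p - 2 * (n - k) = 2 * k + 1 := by omega
    rw [a5, e6] at a4
    generalize iv p (2 * k + 1) = u at *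
    generalize iv p (n - k) = v at *
    generalize ((2 * k + 1 : ℕ) : ZMod (p ^ 3)) = K at *
    generalize (k.centralBinom : ZMod (p ^ 3)) = A0 at *
    generalize ((p - 1 - k).centralBinom : ZMod (p ^ 3)) = B0 at *
    generalize (((p - 1).choose k : ℕ) : ZMod (p ^ 3)) = C at *
    generalize Om p (k + 1) = O at *
    generalize Hm p k = H at *
    generalize (p : ZMod (p ^ 3)) = P at *
    -- C² A0 B0 = C² (A0 B0 K) u
    have b1 : C ^ 2 * A0 * B0 = C ^ 2 * u * (A0 * B0 * K) := by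
      linear_combination (-(C ^ 2 * A0 * B0)) * a3
    rw [b1, a1]
    linear_combination (-u * (1 + 2 * P * O - P * H)) * a2 + 3 * H * a4
      + (4 * O * H * u - 2 * H ^ 2 * u) * hP
  have hsum : ∑ k ∈ range n, (((p - 1).choose k : ℕ) : ZMod (p ^ 3)) ^ 2 *
      (k.centralBinom : ZMod (p ^ 3)) * ((p - 1 - k).centralBinom : ZMod (p ^ 3))
      = -((p : ZMod (p ^ 3)) * Om p n)
        - 2 * ((p : ZMod (p ^ 3)) ^ 2 * ∑ k ∈ range n, iv p (2 * k + 1) * Om p (k + 1))
        - 3 * h * ((p : ZMod (p ^ 3)) ^ 2 * (Hm p n ^ 2 - H2m p n)) := by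
    rw [sum_congr rfl key, sum_sub_distrib, sum_sub_distrib, sum_neg_distrib, ← mul_sum, ← mul_sum,
      ← mul_sum, ← mul_sum, ← mul_sum, cv]
    rfl
  rw [hsum, ht]
  have hsq : ((-1 : ZMod (p ^ 3)) ^ n) ^ 2 = 1 := by
    rw [← pow_mul, mul_comm, pow_mul]
    norm_num
  have sp' : 2 * ∑ k ∈ range n, iv p (2 * k + 1) * Om p (k + 1) = Om p n ^ 2 + O2m p n := sp
  generalize ∑ k ∈ range n, iv p (2 * k + 1) * Om p (k + 1) = X at *
  generalize (-1 : ZMod (p ^ 3)) ^ n = ε at *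
  generalize Hm p n = H at *
  generalize H2m p n = H2 at *
  generalize Om p n = O at *
  generalize O2m p n = O2 at *
  generalize (p : ZMod (p ^ 3)) = P at *
  clear hs sp cv m2
  have q1 : P * O = t - h * t ^ 2 := by
    rw [mO, m1]
    linear_combination t * hh
  have q2 : 2 * (P ^ 2 * X) = t ^ 2 := by
    linear_combination P ^ 2 * sp' + (P * O + (t - h * t ^ 2)) * q1 + z2
      + (-2 * h + h ^ 2 * t) * m3
  have q3 : P ^ 2 * (H ^ 2 - H2) = 4 * t ^ 2 := by
    linear_combination (P * H + (-(2 * t) + t ^ 2)) * m1 - z1 + (-4 + t) * m3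
  have q4 : (ε * (1 + t) ^ 2) ^ 2 * (ε * (1 + t) ^ 2) * (ε * (1 + t) ^ 2) = (1 + t) ^ 8 := by
    linear_combination (1 + t) ^ 8 * (ε ^ 2 + 1) * hsq
  rw [q4, q3]
  linear_combination (-2) * q1 - 2 * q2 + (t ^ 2 - 12 * t ^ 2) * hh
    + (56 + 70 * t + 56 * t ^ 2 + 28 * t ^ 3 + 8 * t ^ 4 + t ^ 5
      - (20 + 15 * t + 6 * t ^ 2 + t ^ 3)) * m3

end Pool.Agent.Helper484_Domb
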