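import Pool.Agent.helper484_hsum.Odd

/-! Harmonic sums in `ZMod (p^3)` with `p = 2n+1`, and the binomial coefficient `C(2n,n)`. -/

set_option autoImplicit false

namespace Pool.Agent.Helper484_Domb

open Finset Pool.Agent.Helper484_HSum

/-- Expansion of a product modulo `P^3`. -/
theorem prod_expand {R : Type*} [CommRing R] (P : R) (hP : P ^ 3 = 0) (c : ℕ → R) (m : ℕ) :
    2 * ∏ i ∈ range m, (1 - P * c i) = 2 - 2 * P * (∑ i ∈ range m, c i)
      + P ^ 2 * ((∑ i ∈ range m, c i) ^ 2 - ∑ i ∈ range m, c i ^ 2) := by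
  induction m with
  | zero => simp
  | succ m ih =>
    rw [prod_range_succ, sum_range_succ, sum_range_succ]
    generalize ∏ i ∈ range m, (1 - P * c i) = X at *
    generalize ∑ i ∈ range m, c i = S at *
    generalize ∑ i ∈ range m, c i ^ 2 = T at *
    linear_combination (1 - P * c m) * ih + (-(c m * S ^ 2) + c m * T) * hP

theorem sum_pairs {R : Type*} [CommRing R] (c : ℕ → R) (m : ℕ) :
    2 * ∑ k ∈ range m, c k * ∑ i ∈ range (k + 1), c i
      = (∑ i ∈ range m, c i) ^ 2 + ∑ i ∈ range m, c i ^ 2 := by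
  induction m with
  | zero => simp
  | succ m ih =>
    rw [sum_range_succ, sum_range_succ (fun i => c i), sum_range_succ (fun i => c i ^ 2), mul_add, ih]
    ring

section

variable {p n : ℕ}

/-- `1/i` in `ZMod (p^3)`. -/
def iv (p i : ℕ) : ZMod (p ^ 3) := ((i : ℕ) : ZMod (p ^ 3))⁻¹

/-- `∑_{i=1}^m 1/i`. -/
def Hm (p m : ℕ) : ZMod (p ^ 3) := ∑ i ∈ range m, iv p (i + 1)

/-- `∑_{i=1}^m 1/i²`. -/
def H2m (p m : ℕ) : ZMod (p ^ 3) := ∑ i ∈ range m, iv p (i + 1) ^ 2

/-- `∑_{i<m} 1/(2i+1)`. -/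
def Om (p m : ℕ) : ZMod (p ^ 3) := ∑ i ∈ range m, iv p (2 * i + 1)

/-- `∑_{i<m} 1/(2i+1)²`. -/
def O2m (p m : ℕ) : ZMod (p ^ 3) := ∑ i ∈ range m, iv p (2 * i + 1) ^ 2

theorem mul_iv (hp : p.Prime) {j : ℕ} (h1 : 1 ≤ j) (h2 : j < p) :
    (j : ZMod (p ^ 3)) * iv p j = 1 := unit_mul hp 3 h1 h2

/-- a half -/
theorem exists_half (hp : p.Prime) (h2 : p ≠ 2) : ∃ h : ZMod (p ^ 3), 2 * h = 1 := by
  obtain ⟨u, hu⟩ := isUnit_two hp h2 3
  exact ⟨(u⁻¹ : (ZMod (p ^ 3))ˣ), by rw [← hu]; exact u.mul_inv⟩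

theorem sum_split {M : Type*} [AddCommMonoid M] (f : ℕ → M) (n : ℕ) :
    ∑ j ∈ Ico 1 (2 * n + 1), f j = ∑ i ∈ range n, f (2 * i + 1) + ∑ i ∈ range n, f (2 * i + 2) := by
  induction n with
  | zero => simp
  | succ n ih =>
    have e : 2 * (n + 1) + 1 = 2 * n + 1 + 1 + 1 := by ring
    rw [e, Finset.sum_Ico_succ_top (by omega), Finset.sum_Ico_succ_top (by omega), ih,
      sum_range_succ, sum_range_succ]
    have e2 : 2 * n + 1 + 1 = 2 * n + 2 := by ring
    rw [e2]
    abel

theorem sum_split2 {M : Type*} [AddCommMonoid M] (f : ℕ → M) (n : ℕ) :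
    ∑ j ∈ Ico 1 (2 * n + 1), f j
      = ∑ i ∈ range n, f (i + 1) + ∑ i ∈ range n, f (2 * n + 1 - (i + 1)) := by
  have h1 : ∑ i ∈ range n, f (2 * n + 1 - (i + 1)) = ∑ i ∈ range n, f (n + i + 1) := by
    rw [← sum_range_reflect]
    apply sum_congr rfl
    intro i hi
    simp only [mem_range] at hi
    congr 1
    omega
  rw [h1, Finset.sum_Ico_eq_sum_range]
  have e : 2 * n + 1 - 1 = n + n := by omega
  rw [e, sum_range_add]
  congr 1
  · apply sum_congr rfl
    intro i _
    congr 1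
    ring
  · apply sum_congr rfl
    intro i _
    congr 1
    ring

theorem iv_reflect (hp : p.Prime) {j : ℕ} (h1 : 1 ≤ j) (h2 : j < p) :
    (p : ZMod (p ^ 3)) ^ 2 * iv p (p - j) = -((p : ZMod (p ^ 3)) ^ 2 * iv p j) := by
  have h := inv_reflect hp 3 h1 h2
  have h3 : (p : ZMod (p ^ 3)) ^ 3 = 0 := pow_self 3
  unfold iv
  rw [h]
  generalize ((p - j : ℕ) : ZMod (p ^ 3))⁻¹ = v
  generalize (j : ZMod (p ^ 3))⁻¹ = u
  generalize (p : ZMod (p ^ 3)) = P at *
  linear_combination (u * v) * h3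

theorem iv_double (hp : p.Prime) (h : ZMod (p ^ 3)) (hh : 2 * h = 1) {j : ℕ} (h1 : 1 ≤ j)
    (h2 : 2 * j < p) : iv p (2 * j) = h * iv p j := by
  have e1 := mul_iv hp h1 (by omega)
  have e2 := mul_iv hp (by omega : 1 ≤ 2 * j) h2
  push_cast at e2
  generalize iv p (2 * j) = v at *
  generalize iv p j = u at *
  generalize (j : ZMod (p ^ 3)) = J at *
  linear_combination (h * u) * e2 - v * e1 - v * J * u * hh

theorem P2H2 (hp : p.Prime) (h3 : 3 < p) (hn : p = 2 * n + 1) :
    (p : ZMod (p ^ 3)) ^ 2 * H2m p n = 0 := by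
  have h0 := powsum hp 2 2 (by
    intro hd
    have := Nat.le_of_dvd (by norm_num) hd
    omega)
  have h0' : (p : ZMod (p ^ 3)) ^ 2 * ∑ j ∈ Ico 1 p, iv p j ^ 2 = 0 := h0
  have hs := sum_split2 (fun j => iv p j ^ 2) n
  rw [← hn] at hs
  rw [hs, mul_add, mul_sum (s := range n) (f := fun i => iv p (p - (i + 1)) ^ 2)] at h0'
  have e : ∀ i ∈ range n, (p : ZMod (p ^ 3)) ^ 2 * iv p (p - (i + 1)) ^ 2
      = (p : ZMod (p ^ 3)) ^ 2 * iv p (i + 1) ^ 2 := by
    intro i hi
    simp only [mem_range] at hi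
    have := iv_reflect hp (j := i + 1) (by omega) (by omega)
    generalize iv p (p - (i + 1)) = v at *
    generalize iv p (i + 1) = u at *
    linear_combination (v - u) * this
  rw [sum_congr rfl e, ← mul_sum] at h0'
  have hu := isUnit_two hp (by omega) 3
  apply hu.mul_right_eq_zero.1
  unfold H2m
  linear_combination h0'

theorem PHfull (hp : p.Prime) (h3 : 3 < p) :
    (p : ZMod (p ^ 3)) * ∑ j ∈ Ico 1 p, iv p j = 0 := by
  have h0 := odd_powsum hp (by omega) 1 1 odd_one (by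
    intro hd
    have := Nat.le_of_dvd (by norm_num) hd
    omega)
  simpa [iv] using h0

theorem PO (hp : p.Prime) (h3 : 3 < p) (hn : p = 2 * n + 1) (h : ZMod (p ^ 3)) (hh : 2 * h = 1) :
    (p : ZMod (p ^ 3)) * Om p n = -(h * ((p : ZMod (p ^ 3)) * Hm p n)) := by
  have h0 := PHfull hp h3
  have hs := sum_split (fun j => iv p j) n
  rw [← hn] at hs
  rw [hs] at h0
  have e : ∑ i ∈ range n, iv p (2 * i + 2) = h * Hm p n := by
    unfold Hm
    rw [mul_sum]
    apply sum_congr rfl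
    intro i hi
    simp only [mem_range] at hi
    have := iv_double hp h hh (j := i + 1) (by omega) (by omega)
    rw [← this]
    congr 1
  rw [e] at h0
  have : (∑ i ∈ range n, iv p (2 * i + 1)) = Om p n := rfl
  rw [this] at h0
  linear_combination h0

theorem P2O2 (hp : p.Prime) (h3 : 3 < p) (hn : p = 2 * n + 1) :
    (p : ZMod (p ^ 3)) ^ 2 * O2m p n = 0 := by
  have h0 := powsum hp 2 2 (by
    intro hd
    have := Nat.le_of_dvd (by norm_num) hd
    omega)
  have h0' : (p : ZMod (p ^ 3)) ^ 2 * ∑ j ∈ Ico 1 p, iv p j ^ 2 = 0 := h0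
  obtain ⟨h, hh⟩ := exists_half hp (by omega)
  have hs := sum_split (fun j => iv p j ^ 2) n
  rw [← hn] at hs
  rw [hs] at h0'
  have e : ∑ i ∈ range n, iv p (2 * i + 2) ^ 2 = h ^ 2 * H2m p n := by
    unfold H2m
    rw [mul_sum]
    apply sum_congr rfl
    intro i hi
    simp only [mem_range] at hi
    have := iv_double hp h hh (j := i + 1) (by omega) (by omega)
    have e2 : iv p (2 * i + 2) = iv p (2 * (i + 1)) := by congr 1
    rw [e2, this]
    ring
  have e3 : ∑ i ∈ range n, iv p (2 * i + 1) ^ 2 = O2m p n := rfl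
  rw [e, e3] at h0'
  linear_combination h0' - h ^ 2 * P2H2 hp h3 hn

/-- The convolution `∑_{k<m} H_k/(m-k) = H_m² - H_m^{(2)}`. -/
theorem conv (hp : p.Prime) (m : ℕ) (hm : m < p) :
    ∑ k ∈ range m, Hm p k * iv p (m - k) = Hm p m ^ 2 - H2m p m := by
  induction m with
  | zero => simp [Hm, H2m]
  | succ m ih =>
    have ih := ih (by omega)
    have e1 : ∑ k ∈ range (m + 1), Hm p k * iv p (m + 1 - k)
        = ∑ k ∈ range m, Hm p (k + 1) * iv p (m - k) := by
      rw [sum_range_succ']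
      have : Hm p 0 = 0 := by simp [Hm]
      rw [this, zero_mul, add_zero]
      apply sum_congr rfl
      intro k _
      congr 2
      omega
    have e2 : ∀ k ∈ range m, Hm p (k + 1) * iv p (m - k)
        = Hm p k * iv p (m - k) + iv p (m + 1) * (iv p (k + 1) + iv p (m - k)) := by
      intro k hk
      simp only [mem_range] at hk
      have : Hm p (k + 1) = Hm p k + iv p (k + 1) := by
        unfold Hm
        rw [sum_range_succ]
      rw [this]
      have a1 := mul_iv hp (j := k + 1) (by omega) (by omega)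
      have a2 := mul_iv hp (j := m - k) (by omega) (by omega)
      have a3 := mul_iv hp (j := m + 1) (by omega) (by omega)
      have a4 : ((m + 1 : ℕ) : ZMod (p ^ 3)) = ((k + 1 : ℕ) : ZMod (p ^ 3))
          + ((m - k : ℕ) : ZMod (p ^ 3)) := by
        rw [← Nat.cast_add]
        congr 1
        omega
      rw [a4] at a3
      generalize iv p (k + 1) = x at *
      generalize iv p (m - k) = y at *
      generalize iv p (m + 1) = w at *
      generalize ((k + 1 : ℕ) : ZMod (p ^ 3)) = X at *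
      generalize ((m - k : ℕ) : ZMod (p ^ 3)) = Y at *
      linear_combination (-(x * y)) * a3 + w * y * a1 + w * x * a2
    rw [e1, sum_congr rfl e2, sum_add_distrib, ih, ← mul_sum, sum_add_distrib]
    have e3 : ∑ i ∈ range m, iv p (i + 1) = Hm p m := rfl
    have e4 : ∑ i ∈ range m, iv p (m - i) = Hm p m := by
      unfold Hm
      rw [← sum_range_reflect]
      apply sum_congr rfl
      intro i hi
      simp only [mem_range] at hi
      congr 1
      omega
    rw [e3, e4]
    have e5 : Hm p (m + 1) = Hm p m + iv p (m + 1) := by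
      unfold Hm
      rw [sum_range_succ]
    have e6 : H2m p (m + 1) = H2m p m + iv p (m + 1) ^ 2 := by
      unfold H2m
      rw [sum_range_succ]
    rw [e5, e6]
    ring

end

end Pool.Agent.Helper484_Domb
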