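import Pool.Agent.helper484_domb.Harm

/-! `C(2n,n)` and `H_n` in `ZMod (p^3)`, `p = 2n+1`, in terms of `2^(p-1)`. -/

set_option autoImplicit false

namespace Pool.Agent.Helper484_Domb

open Finset Pool.Agent.Helper484_HSum

variable {p n : ℕ}

theorem P3 : (p : ZMod (p ^ 3)) ^ 3 = 0 := pow_self 3

theorem cB_fact (n : ℕ) : n.centralBinom * n.factorial = ∏ i ∈ range n, (2 * (2 * i + 1)) := by
  induction n with
  | zero => simp
  | succ n ih =>
    rw [prod_range_succ, ← ih, Nat.factorial_succ]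
    have h := Nat.succ_mul_centralBinom_succ n
    calc (n + 1).centralBinom * ((n + 1) * n.factorial)
        = ((n + 1) * (n + 1).centralBinom) * n.factorial := by ring
      _ = _ := by rw [h]; ring

theorem choose_prod (hp : p.Prime) (m : ℕ) (hm : m < p) :
    (((p - 1).choose m : ℕ) : ZMod (p ^ 3))
      = (-1) ^ m * ∏ i ∈ range m, (1 - (p : ZMod (p ^ 3)) * iv p (i + 1)) := by
  induction m with
  | zero => simp
  | succ m ih =>
    have h := choose_pred hp 3 (j := m + 1) (by omega) hm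
    rw [h, Nat.add_sub_cancel, ih (by omega), prod_range_succ, pow_succ (-1 : ZMod (p ^ 3)) m]
    unfold iv
    ring

theorem cB_mod1 (hp : p.Prime) (hn : p = 2 * n + 1) : (n.centralBinom : ZMod (p ^ 3))
    = (-1) ^ n * ∏ i ∈ range n, (1 - (p : ZMod (p ^ 3)) * iv p (i + 1)) := by
  rw [← choose_prod hp n (by omega)]
  have : p - 1 = 2 * n := by omega
  rw [this]
  rfl

theorem cB_mod2 (hp : p.Prime) (hn : p = 2 * n + 1) (h : ZMod (p ^ 3)) (hh : 2 * h = 1) :
    (n.centralBinom : ZMod (p ^ 3))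
    = (-1) ^ n * 4 ^ n * ∏ i ∈ range n, (1 - (p : ZMod (p ^ 3)) * (h * iv p (i + 1))) := by
  have hfac : IsUnit ((n.factorial : ℕ) : ZMod (p ^ 3)) := by
    rw [ZMod.isUnit_iff_coprime]
    apply Nat.Coprime.pow_right
    rw [Nat.coprime_comm, hp.coprime_iff_not_dvd, hp.dvd_factorial]
    omega
  apply hfac.mul_right_cancel
  have h1 : (n.centralBinom : ZMod (p ^ 3)) * (n.factorial : ZMod (p ^ 3))
      = ∏ i ∈ range n, (2 * (2 * (i : ZMod (p ^ 3)) + 1)) := by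
    have := congrArg (Nat.cast : ℕ → ZMod (p ^ 3)) (cB_fact n)
    push_cast at this
    exact this
  rw [h1, ← prod_range_reflect]
  have h2 : ((n.factorial : ℕ) : ZMod (p ^ 3)) = ∏ i ∈ range n, ((i + 1 : ℕ) : ZMod (p ^ 3)) := by
    rw [← prod_range_add_one_eq_factorial]
    push_cast
    rfl
  rw [h2]
  have h3 : (-1 : ZMod (p ^ 3)) ^ n * 4 ^ n = ∏ _i ∈ range n, (-4 : ZMod (p ^ 3)) := by
    rw [prod_const, card_range, ← mul_pow]
    norm_num
  rw [h3, ← prod_mul_distrib, ← prod_mul_distrib]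
  apply prod_congr rfl
  intro i hi
  simp only [mem_range] at hi
  have a := mul_iv hp (j := i + 1) (by omega) (by omega)
  have e : (2 * (((n - 1 - i : ℕ) : ℕ) : ZMod (p ^ 3)) + 1)
      = (p : ZMod (p ^ 3)) - 2 * ((i + 1 : ℕ) : ZMod (p ^ 3)) := by
    rw [eq_sub_iff_add_eq]
    have : 2 * (n - 1 - i) + 1 + 2 * (i + 1) = p := by omega
    have h4 := congrArg (Nat.cast : ℕ → ZMod (p ^ 3)) this
    push_cast at h4 ⊢
    exact h4
  rw [e]
  generalize iv p (i + 1) = u at *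
  generalize ((i + 1 : ℕ) : ZMod (p ^ 3)) = J at *
  generalize (p : ZMod (p ^ 3)) = P at *
  linear_combination (-(4 * P * h)) * a - 2 * P * hh

/-- Fermat: `2^(p-1) - 1` is a multiple of `p`. -/
theorem fermat (hp : p.Prime) (h3 : 3 < p) (hn : p = 2 * n + 1) :
    ∃ τ : ZMod (p ^ 3), (4 : ZMod (p ^ 3)) ^ n = 1 + (p : ZMod (p ^ 3)) * τ := by
  have h1 : (2 : ℤ) ^ (p - 1) ≡ 1 [ZMOD p] := by
    apply Int.ModEq.pow_card_sub_one_eq_one hp
    have : Nat.Coprime 2 p := (Nat.coprime_primes Nat.prime_two hp).2 (by omega)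
    exact Nat.isCoprime_iff_coprime.2 this
  obtain ⟨q, hq⟩ := h1.symm.dvd
  refine ⟨(q : ZMod (p ^ 3)), ?_⟩
  have h2 := congrArg (Int.cast : ℤ → ZMod (p ^ 3)) hq
  push_cast at h2
  have e : (4 : ZMod (p ^ 3)) ^ n = 2 ^ (p - 1) := by
    have : p - 1 = 2 * n := by omega
    rw [this, pow_mul]
    norm_num
  rw [e]
  linear_combination h2

/-- The main relations; `t = 2^(p-1) - 1`. -/
theorem harm_main (hp : p.Prime) (h3 : 3 < p) (hn : p = 2 * n + 1) (t : ZMod (p ^ 3))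
    (ht : (4 : ZMod (p ^ 3)) ^ n = 1 + t) :
    (p : ZMod (p ^ 3)) * Hm p n = -(2 * t) + t ^ 2 ∧
    (n.centralBinom : ZMod (p ^ 3)) = (-1) ^ n * (1 + t) ^ 2 ∧ t ^ 3 = 0 ∧
      (p : ZMod (p ^ 3)) * t ^ 2 = 0 ∧ (p : ZMod (p ^ 3)) ^ 2 * t = 0 := by
  obtain ⟨h, hh⟩ := exists_half hp (by omega)
  obtain ⟨τ, hτ⟩ := fermat hp h3 hn
  have htτ : t = (p : ZMod (p ^ 3)) * τ := by
    rw [ht] at hτ
    linear_combination hτ
  have hP : (p : ZMod (p ^ 3)) ^ 3 = 0 := P3
  have m1 := cB_mod1 hp hn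
  have m2 := cB_mod2 hp hn h hh
  have x1 := prod_expand (p : ZMod (p ^ 3)) hP (fun i => iv p (i + 1)) n
  have x2 := prod_expand (p : ZMod (p ^ 3)) hP (fun i => h * iv p (i + 1)) n
  have hz := P2H2 hp h3 hn
  have s1 : ∑ i ∈ range n, iv p (i + 1) = Hm p n := rfl
  have s2 : ∑ i ∈ range n, iv p (i + 1) ^ 2 = H2m p n := rfl
  have s3 : ∑ i ∈ range n, h * iv p (i + 1) = h * Hm p n := by
    rw [← mul_sum, s1]
  have s4 : ∑ i ∈ range n, (h * iv p (i + 1)) ^ 2 = h ^ 2 * H2m p n := by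
    rw [← s2, mul_sum]
    apply sum_congr rfl
    intro i _
    ring
  rw [s1, s2] at x1
  rw [s3, s4] at x2
  have hsq : ((-1 : ZMod (p ^ 3)) ^ n) * ((-1 : ZMod (p ^ 3)) ^ n) = 1 := by
    rw [← mul_pow]
    norm_num
  rw [ht] at m2
  generalize ∏ i ∈ range n, (1 - (p : ZMod (p ^ 3)) * iv p (i + 1)) = A at *
  generalize ∏ i ∈ range n, (1 - (p : ZMod (p ^ 3)) * (h * iv p (i + 1))) = B at *
  generalize (-1 : ZMod (p ^ 3)) ^ n = e at *
  generalize (n.centralBinom : ZMod (p ^ 3)) = C at *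
  generalize Hm p n = S at *
  generalize H2m p n = T at *
  generalize (p : ZMod (p ^ 3)) = P at *
  -- A = (1 + t) B
  have hAB : A = (1 + t) * B := by
    have : e * A = e * (1 + t) * B := by rw [← m1, m2]
    linear_combination e * this + (-A + (1 + t) * B) * hsq
  -- 2 A = 2 - 2 P S + P² S²
  have y1 : 2 * A = 2 - 2 * (P * S) + (P * S) ^ 2 := by
    linear_combination x1 - hz
  -- with z = h P S: 2 B = 2 - 2 z + z²
  have y2 : 2 * B = 2 - 2 * (h * P * S) + (h * P * S) ^ 2 := by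
    linear_combination x2 - h ^ 2 * hz
  -- z = P ζ
  obtain ⟨ζ, hζ⟩ : ∃ ζ, ζ = h * S := ⟨_, rfl⟩
  have y3 : -2 * (P * ζ) + 3 * (P * ζ) ^ 2 = 2 * (P * τ) - 2 * (P * τ) * (P * ζ) := by
    have q1 : P * S = 2 * (P * ζ) := by rw [hζ]; linear_combination (-(P * S)) * hh
    have q2 : h * P * S = P * ζ := by rw [hζ]; ring
    rw [q1] at y1
    rw [q2] at y2
    rw [← htτ]
    have q3 : 2 * A = (1 + t) * (2 * B) := by rw [hAB]; ring
    rw [y1, y2] at q3
    have q4 : t * (P * ζ) ^ 2 = 0 := by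
      rw [htτ]
      linear_combination (τ * ζ ^ 2) * hP
    linear_combination q3 + q4
  have h4 : P ^ 2 * ζ = -(P ^ 2 * τ) := by
    linear_combination (-1) * h * P * y3 + (-(P ^ 2 * ζ) - P ^ 2 * τ) * hh
      + (3 * h * ζ ^ 2 + 2 * h * τ * ζ) * hP
  have h5 : (P * ζ) ^ 2 = t ^ 2 := by
    rw [htτ]
    linear_combination (ζ - τ) * h4
  have h6 : t * (P * ζ) = -t ^ 2 := by
    rw [htτ]
    linear_combination τ * h4
  have h7 : P * S = -(2 * t) + t ^ 2 := by
    have q1 : P * S = 2 * (P * ζ) := by rw [hζ]; linear_combination (-(P * S)) * hh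
    rw [q1]
    rw [← htτ] at y3
    linear_combination (-1) * y3 + 3 * h5 + 2 * h6
  have h8 : t ^ 3 = 0 := by rw [htτ]; linear_combination τ ^ 3 * hP
  refine ⟨h7, ?_, h8, ?_, ?_⟩
  · have h9 : 2 * A = 2 * (1 + t) ^ 2 := by
      rw [y1, h7]
      linear_combination (-4 + t) * h8
    have h10 : A = (1 + t) ^ 2 := by
      linear_combination h * h9 + (-A + (1 + t) ^ 2) * hh
    rw [m1, h10]
  · rw [htτ]; linear_combination τ ^ 2 * hP
  · rw [htτ]; linear_combination τ * hP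

end Pool.Agent.Helper484_Domb
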