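import Pool.Agent.helper484_domb.Tele

/-! Integrality and parity of `a_m`. -/

set_option autoImplicit false

namespace Pool.Agent.Helper484_Domb

open Finset

theorem lucas2 (n k : ℕ) (h1 : n % 2 = 1) (h2 : k % 2 = 1) :
    Odd (n.choose k) ↔ Odd ((n / 2).choose (k / 2)) := by
  have : Fact (Nat.Prime 2) := ⟨Nat.prime_two⟩
  have h := Choose.choose_modEq_choose_mod_mul_choose_div_nat (n := n) (k := k) (p := 2)
  rw [h1, h2] at h
  simp only [Nat.choose_self, one_mul] at h
  rw [Nat.odd_iff, Nat.odd_iff, h]

theorem pow_iff (t : ℕ) : (∃ a, t + 1 = 2 ^ a) ↔ ∃ a, 2 * t + 2 = 2 ^ a := by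
  constructor
  · rintro ⟨a, ha⟩
    exact ⟨a + 1, by rw [pow_succ, ← ha]; ring⟩
  · rintro ⟨a, ha⟩
    rcases a with _ | a
    · simp at ha
    · rw [pow_succ] at ha
      exact ⟨a, by omega⟩

theorem odd_choose_half (i : ℕ) : Odd ((2 * i + 1).choose i) ↔ ∃ a, i + 1 = 2 ^ a := by
  induction i using Nat.strong_induction_on with
  | _ i ih =>
    rcases Nat.even_or_odd' i with ⟨t, rfl | rfl⟩
    · rcases Nat.eq_zero_or_pos t with rfl | ht
      · simp only [mul_zero, zero_add, Nat.choose_zero_right]
        exact ⟨fun _ => ⟨0, rfl⟩, fun _ => odd_one⟩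
      · constructor
        · intro h
          exfalso
          have : Fact (Nat.Prime 2) := ⟨Nat.prime_two⟩
          have h2 := Choose.choose_modEq_choose_mod_mul_choose_div_nat (n := 2 * (2 * t) + 1)
            (k := 2 * t) (p := 2)
          have e1 : (2 * (2 * t) + 1) % 2 = 1 := by omega
          have e2 : (2 * t) % 2 = 0 := by omega
          have e3 : (2 * (2 * t) + 1) / 2 = 2 * t := by omega
          have e4 : 2 * t / 2 = t := by omega
          rw [e1, e2, e3, e4] at h2
          have h3 : 2 ∣ (2 * t).choose t := by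
            have := Nat.two_dvd_centralBinom_of_one_le ht
            exact this
          rw [Nat.odd_iff, h2] at h
          simp only [Nat.choose_zero_right, one_mul] at h
          omega
        · rintro ⟨a, ha⟩
          exfalso
          rcases a with _ | a
          · simp at ha
            omega
          · rw [pow_succ] at ha
            omega
    · rw [lucas2 _ _ (by omega) (by omega)]
      have e1 : (2 * (2 * t + 1) + 1) / 2 = 2 * t + 1 := by omega
      have e2 : (2 * t + 1) / 2 = t := by omega
      rw [e1, e2, ih t (by omega), pow_iff]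

theorem odd_choose_third (a : ℕ) : ∀ i, i + 1 = 2 ^ a → Odd ((3 * i + 2).choose i) := by
  induction a with
  | zero =>
    intro i hi
    have : i = 0 := by simpa using hi
    subst this
    simp
  | succ a ih =>
    intro i hi
    rw [pow_succ] at hi
    obtain ⟨t, rfl⟩ : ∃ t, i = 2 * t + 1 := ⟨2 ^ a - 1, by
      have : 0 < 2 ^ a := by positivity
      omega⟩
    rw [lucas2 _ _ (by omega) (by omega)]
    have e1 : (3 * (2 * t + 1) + 2) / 2 = 3 * t + 2 := by omega
    have e2 : (2 * t + 1) / 2 = t := by omega
    rw [e1, e2]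
    exact ih t (by omega)

theorem catalan_choose (i : ℕ) : (2 * i + 1) * catalan i = (2 * i + 1).choose i := by
  have h1 := succ_mul_catalan_eq_centralBinom i
  have h2 := Nat.choose_mul_succ_eq (2 * i) i
  have e : 2 * i + 1 - i = i + 1 := by omega
  rw [e] at h2
  unfold Nat.centralBinom at h1
  rw [← h1] at h2
  apply Nat.eq_of_mul_eq_mul_right (by omega : 0 < i + 1)
  rw [← h2]
  ring

theorem odd_catalan (i : ℕ) : Odd (catalan i) ↔ ∃ a, i + 1 = 2 ^ a := by
  rw [← odd_choose_half, ← catalan_choose, Nat.odd_mul]
  simp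

/-- The terms of `a_m`, `m = M + 2`, as natural numbers. -/
def N (M i : ℕ) : ℕ :=
  if 2 * i < M then
    4 ^ (M - 2 * i - 1) * (i + 1).centralBinom * (M + i + 2).choose (i + 1) * M.choose (2 * i) *
      catalan i
  else if 2 * i = M then (2 * i + 1).choose i * (3 * i + 2).choose i * catalan i
  else 0

theorem N_eq (M i : ℕ) : (N M i : ℚ) = A M i := by
  unfold N A
  split_ifs with h1 h2
  · obtain ⟨l, hl⟩ := Nat.exists_eq_add_of_lt h1
    have e : M - 2 * i - 1 = l := by omega
    have e2 : (4 : ℚ) ^ M / (4 * 16 ^ i) = 4 ^ l := by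
      rw [hl, pow_add, pow_add, pow_mul]
      norm_num
      field_simp
    rw [e, e2]
    push_cast
    ring
  · subst h2
    have e2 : (4 : ℚ) ^ (2 * i) / (4 * 16 ^ i) = 1 / 4 := by
      rw [pow_mul]
      norm_num
      field_simp
    rw [e2, Nat.choose_self]
    have c1 : (i + 1).centralBinom = 2 * (2 * i + 1).choose i := by
      unfold Nat.centralBinom
      have := Nat.choose_succ_succ (2 * i + 1) i
      have h2 : (2 * i + 1).choose (i + 1) = (2 * i + 1).choose i := by
        rw [← Nat.choose_symm (by omega : i ≤ 2 * i + 1)]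
        congr 1
        omega
      have e : 2 * (i + 1) = 2 * i + 1 + 1 := by ring
      rw [e]
      simp only [Nat.succ_eq_add_one] at this
      rw [this, h2]
      ring
    have c2 : (2 * i + i + 2).choose (i + 1) = 2 * (3 * i + 2).choose i := by
      have e : 2 * i + i + 2 = 3 * i + 2 := by ring
      rw [e]
      have := Nat.choose_succ_right_eq (3 * i + 2) i
      have e3 : 3 * i + 2 - i = 2 * (i + 1) := by omega
      rw [e3] at this
      apply Nat.eq_of_mul_eq_mul_right (Nat.succ_pos i)
      simp only [Nat.succ_eq_add_one]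
      rw [this]
      ring
    rw [c1, c2]
    push_cast
    ring
  · rw [Nat.choose_eq_zero_of_lt (by omega : M < 2 * i)]
    simp

theorem N_even (M i : ℕ) (h : 2 * i ≠ M) : Even (N M i) := by
  unfold N
  split_ifs with h1
  · have h2 : 2 ∣ (i + 1).centralBinom := Nat.two_dvd_centralBinom_succ i
    rw [even_iff_two_dvd]
    exact Dvd.dvd.mul_right (Dvd.dvd.mul_right (Dvd.dvd.mul_right (Dvd.dvd.mul_left h2 _) _) _) _
  · simp

theorem odd_sum (M : ℕ) : Odd (∑ i ∈ range (M + 1), N M i) ↔ ∃ a, M + 2 = 2 ^ a := by
  rcases Nat.even_or_odd' M with ⟨t, rfl | rfl⟩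
  · have hmem : t ∈ range (2 * t + 1) := by
      simp only [mem_range]
      omega
    rw [← Finset.add_sum_erase _ _ hmem]
    have hev : Even (∑ i ∈ (range (2 * t + 1)).erase t, N (2 * t) i) := by
      apply Finset.even_sum
      intro i hi
      apply N_even
      have := Finset.ne_of_mem_erase hi
      omega
    rw [Nat.odd_add]
    simp only [hev, iff_true]
    have : N (2 * t) t = (2 * t + 1).choose t * (3 * t + 2).choose t * catalan t := by
      unfold N
      simp
    rw [this, Nat.odd_mul, Nat.odd_mul, odd_choose_half, odd_catalan, ← pow_iff]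
    constructor
    · rintro ⟨⟨h, _⟩, _⟩
      exact h
    · intro h
      exact ⟨⟨h, odd_choose_third h.choose t h.choose_spec⟩, h⟩
  · constructor
    · intro h
      exfalso
      have hev : Even (∑ i ∈ range (2 * t + 1 + 1), N (2 * t + 1) i) := by
        apply Finset.even_sum
        intro i _
        apply N_even
        omega
      rw [Nat.even_iff] at hev
      rw [Nat.odd_iff] at h
      omega
    · rintro ⟨a, ha⟩
      exfalso
      rcases a with _ | a
      · simp at ha
      · rw [pow_succ] at ha
        omega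

end Pool.Agent.Helper484_Domb
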