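import Pool.Agent.helper484_domb.Basic

/-! The single sum formula for the Domb numbers. -/

set_option autoImplicit false

namespace Pool.Agent.Helper484_Domb

open Finset

/-- The summand of the single sum. -/
def H (n j : ℕ) : ℚ :=
  (j.centralBinom : ℚ) ^ 2 * ((3 * j).choose j : ℚ) * ((n + j).choose (3 * j) : ℚ) * 4 ^ n / 16 ^ j

theorem H_zero (n j : ℕ) (h : n < 2 * j) : H n j = 0 := by
  unfold H
  rw [Nat.choose_eq_zero_of_lt (by omega : n + j < 3 * j)]
  simp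

theorem H1 (n j : ℕ) : H n j * (4 * ((n : ℚ) + 1 + j)) = H (n + 1) j * ((n : ℚ) + 1 - 2 * j) := by
  rcases Nat.lt_or_ge n (2 * j) with h | h
  · rw [H_zero n j h]
    rcases Nat.lt_or_ge (n + 1) (2 * j) with h2 | h2
    · rw [H_zero (n + 1) j h2]
      ring
    · have : n + 1 = 2 * j := by omega
      have e : ((n : ℚ) + 1 - 2 * j) = 0 := by
        have : (n : ℚ) + 1 = 2 * j := by exact_mod_cast this
        linarith
      rw [e]
      ring
  · obtain ⟨l, rfl⟩ := Nat.exists_eq_add_of_le h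
    unfold H
    have h1 := Nat.choose_mul_succ_eq (2 * j + l + j) (3 * j)
    have e1 : 2 * j + l + j + 1 - 3 * j = l + 1 := by omega
    have e2 : 2 * j + l + 1 + j = 2 * j + l + j + 1 := by omega
    rw [e1] at h1
    rw [e2]
    have h1' : ((2 * j + l + j).choose (3 * j) : ℚ) * (2 * (j : ℚ) + l + j + 1)
        = ((2 * j + l + j + 1).choose (3 * j) : ℚ) * ((l : ℚ) + 1) := by exact_mod_cast h1
    push_cast
    rw [pow_succ]
    have e3 : (2 * (j : ℚ) + l + 1 - 2 * j) = l + 1 := by ring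
    rw [e3]
    calc _ = (j.centralBinom : ℚ) ^ 2 * ((3 * j).choose j : ℚ) *
          (((2 * j + l + j).choose (3 * j) : ℚ) * (2 * (j : ℚ) + l + j + 1)) * 4 ^ (2 * j + l) *
            4 / 16 ^ j := by ring
      _ = _ := by rw [h1']; ring

theorem choose3 (j : ℕ) : ((3 * (j + 1)).choose (j + 1) : ℚ) *
    (2 * ((j : ℚ) + 1) * (2 * j + 1)) = ((3 * j).choose j : ℚ) * (3 * (3 * j + 1) * (3 * j + 2)) := by
  -- C(3j+3, j+1) (j+1) = (3j+3) C(3j+2, j)
  have a1 := Nat.add_one_mul_choose_eq (3 * j + 2) j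
  -- C(3j+1, j) (3j+2) = C(3j+2, j) (2j+2)
  have a2 := Nat.choose_mul_succ_eq (3 * j + 1) j
  have a3 := Nat.choose_mul_succ_eq (3 * j) j
  have e2 : 3 * j + 1 + 1 - j = 2 * j + 2 := by omega
  have e3 : 3 * j + 1 - j = 2 * j + 1 := by omega
  rw [e2] at a2
  rw [e3] at a3
  have b1 : (3 * (j : ℚ) + 3) * ((3 * j + 2).choose j : ℚ)
      = ((3 * (j + 1)).choose (j + 1) : ℚ) * ((j : ℚ) + 1) := by
    have e : 3 * (j + 1) = 3 * j + 2 + 1 := by ring
    rw [e]
    have : ((3 * j + 2 + 1 : ℕ) : ℚ) * ((3 * j + 2).choose j : ℚ)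
      = ((3 * j + 2 + 1).choose (j + 1) : ℚ) * ((j + 1 : ℕ) : ℚ) := by exact_mod_cast a1
    push_cast at this
    linarith
  have b2 : ((3 * j + 1).choose j : ℚ) * (3 * (j : ℚ) + 2)
      = ((3 * j + 2).choose j : ℚ) * (2 * (j : ℚ) + 2) := by
    have : ((3 * j + 1).choose j : ℚ) * ((3 * j + 1 + 1 : ℕ) : ℚ)
      = ((3 * j + 1 + 1).choose j : ℚ) * ((2 * j + 2 : ℕ) : ℚ) := by exact_mod_cast a2
    push_cast at this
    linarith
  have b3 : ((3 * j).choose j : ℚ) * (3 * (j : ℚ) + 1)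
      = ((3 * j + 1).choose j : ℚ) * (2 * (j : ℚ) + 1) := by
    have : ((3 * j).choose j : ℚ) * ((3 * j + 1 : ℕ) : ℚ)
      = ((3 * j + 1).choose j : ℚ) * ((2 * j + 1 : ℕ) : ℚ) := by exact_mod_cast a3
    push_cast at this
    linarith
  have hj : ((j : ℚ) + 1) ≠ 0 := by positivity
  apply mul_right_cancel₀ hj
  calc _ = (((3 * (j + 1)).choose (j + 1) : ℚ) * ((j : ℚ) + 1)) *
        (2 * ((j : ℚ) + 1) * (2 * j + 1)) := by ring
    _ = (3 * (j : ℚ) + 3) * (((3 * j + 2).choose j : ℚ) * (2 * (j : ℚ) + 2)) * (2 * j + 1) := by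
        rw [← b1]; ring
    _ = (3 * (j : ℚ) + 3) * (3 * (j : ℚ) + 2) * (((3 * j + 1).choose j : ℚ) * (2 * (j : ℚ) + 1)) := by
        rw [← b2]; ring
    _ = _ := by rw [← b3]; ring

theorem H2 (n j : ℕ) : H n (j + 1) * (8 * ((j : ℚ) + 1) ^ 4)
    = H n j * ((2 * j + 1) * ((n : ℚ) + j + 1) * ((n : ℚ) - 2 * j) * ((n : ℚ) - 2 * j - 1)) := by
  rcases Nat.lt_or_ge n (2 * (j + 1)) with h | h
  · rw [H_zero n (j + 1) h]
    rcases Nat.lt_or_ge n (2 * j) with h2 | h2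
    · rw [H_zero n j h2]
      ring
    · rcases (by omega : n = 2 * j ∨ n = 2 * j + 1) with e | e
      · have : (n : ℚ) = 2 * j := by exact_mod_cast e
        rw [this]
        ring
      · have : (n : ℚ) = 2 * j + 1 := by exact_mod_cast e
        rw [this]
        ring
  · obtain ⟨l, rfl⟩ := Nat.exists_eq_add_of_le h
    -- n = 2j + 2 + l
    have e1 : 2 * (j + 1) + l + (j + 1) = (3 * j + 2 + l) + 1 := by ring
    have e2 : 2 * (j + 1) + l + j = 3 * j + 2 + l := by ring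
    have e3 : 3 * (j + 1) = (3 * j + 2) + 1 := by ring
    have a1 := Nat.add_one_mul_choose_eq (3 * j + 2 + l) (3 * j + 2)
    have a2 := Nat.choose_succ_right_eq (3 * j + 2 + l) (3 * j + 1)
    have a3 := Nat.choose_succ_right_eq (3 * j + 2 + l) (3 * j)
    have f2 : 3 * j + 2 + l - (3 * j + 1) = l + 1 := by omega
    have f3 : 3 * j + 2 + l - (3 * j) = l + 2 := by omega
    rw [f2] at a2
    rw [f3] at a3
    have c3 := choose3 j
    have cb := cB_succ j
    unfold H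
    rw [e1, e2]
    have b1 : (3 * (j : ℚ) + 3 + l) * ((3 * j + 2 + l).choose (3 * j + 2) : ℚ)
        = ((3 * j + 2 + l + 1).choose (3 * (j + 1)) : ℚ) * (3 * (j : ℚ) + 3) := by
      rw [e3]
      have : ((3 * j + 2 + l + 1 : ℕ) : ℚ) * ((3 * j + 2 + l).choose (3 * j + 2) : ℚ)
        = ((3 * j + 2 + l + 1).choose (3 * j + 2 + 1) : ℚ) * ((3 * j + 2 + 1 : ℕ) : ℚ) := by
        exact_mod_cast a1
      push_cast at this
      linarith
    have b2 : ((3 * j + 2 + l).choose (3 * j + 2) : ℚ) * (3 * (j : ℚ) + 2)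
        = ((3 * j + 2 + l).choose (3 * j + 1) : ℚ) * ((l : ℚ) + 1) := by
      have : ((3 * j + 2 + l).choose (3 * j + 1 + 1) : ℚ) * ((3 * j + 1 + 1 : ℕ) : ℚ)
        = ((3 * j + 2 + l).choose (3 * j + 1) : ℚ) * ((l + 1 : ℕ) : ℚ) := by exact_mod_cast a2
      push_cast at this
      linarith
    have b3 : ((3 * j + 2 + l).choose (3 * j + 1) : ℚ) * (3 * (j : ℚ) + 1)
        = ((3 * j + 2 + l).choose (3 * j) : ℚ) * ((l : ℚ) + 2) := by
      have : ((3 * j + 2 + l).choose (3 * j + 1) : ℚ) * ((3 * j + 1 : ℕ) : ℚ)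
        = ((3 * j + 2 + l).choose (3 * j) : ℚ) * ((l + 2 : ℕ) : ℚ) := by exact_mod_cast a3
      push_cast at this
      linarith
    set A := ((3 * j + 2 + l + 1).choose (3 * (j + 1)) : ℚ)
    set B := ((3 * j + 2 + l).choose (3 * j + 2) : ℚ)
    set C := ((3 * j + 2 + l).choose (3 * j + 1) : ℚ)
    set D := ((3 * j + 2 + l).choose (3 * j) : ℚ)
    set U := ((3 * (j + 1)).choose (j + 1) : ℚ)
    set V := ((3 * j).choose j : ℚ)
    set W := ((j + 1).centralBinom : ℚ)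
    set Z := (j.centralBinom : ℚ)
    have hj : ((j : ℚ) + 1) ≠ 0 := by positivity
    have hj2 : (2 * (j : ℚ) + 1) ≠ 0 := by positivity
    have hj3 : (3 * (j : ℚ) + 1) ≠ 0 := by positivity
    have hj4 : (3 * (j : ℚ) + 2) ≠ 0 := by positivity
    have hW : W = 2 * (2 * j + 1) * Z / ((j : ℚ) + 1) := by
      rw [eq_div_iff hj, ← cb]; ring
    have hU : U = V * (3 * (3 * j + 1) * (3 * j + 2)) / (2 * ((j : ℚ) + 1) * (2 * j + 1)) := by
      rw [eq_div_iff (by positivity), ← c3]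
    have hC : C = D * ((l : ℚ) + 2) / (3 * (j : ℚ) + 1) := by
      rw [eq_div_iff hj3, b3]
    have hB : B = C * ((l : ℚ) + 1) / (3 * (j : ℚ) + 2) := by
      rw [eq_div_iff hj4, b2]
    have hA : A = (3 * (j : ℚ) + 3 + l) * B / (3 * (j : ℚ) + 3) := by
      rw [eq_div_iff (by positivity), ← b1]
    rw [hA, hB, hC, hU, hW, pow_succ (16 : ℚ) j]
    push_cast
    have h16 : (16 : ℚ) ^ j ≠ 0 := by positivity
    field_simp
    ring

/-- The certificate. -/
def GH (n j : ℕ) : ℚ :=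
  -(12 * (3 * (n : ℚ) + 4) * (j : ℚ) ^ 4 * H (n + 2) j / (((n : ℚ) + 1 + j) * ((n : ℚ) + 2 + j)))

theorem keyH (n j : ℕ) :
    64 * ((n : ℚ) + 1) ^ 3 * H n j
      - 2 * (2 * (n : ℚ) + 3) * (5 * ((n : ℚ) + 1) ^ 2 + 5 * ((n : ℚ) + 1) + 2) * H (n + 1) j
      + ((n : ℚ) + 2) ^ 3 * H (n + 2) j = GH n (j + 1) - GH n j := by
  have n1 : ((n : ℚ) + 1 + j) ≠ 0 := by positivity
  have n2 : ((n : ℚ) + 2 + j) ≠ 0 := by positivity
  have n3 : ((n : ℚ) + 3 + j) ≠ 0 := by positivity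
  have k1 : ((j : ℚ) + 1) ≠ 0 := by positivity
  have a1 : H (n + 1) j = H (n + 2) j * ((n : ℚ) + 2 - 2 * j) / (4 * ((n : ℚ) + 2 + j)) := by
    have h := H1 (n + 1) j
    rw [eq_div_iff (by positivity)]
    push_cast at h
    calc _ = H (n + 1) j * (4 * ((n : ℚ) + 1 + 1 + j)) := by ring
      _ = _ := by rw [h]; ring
  have a0 : H n j = H (n + 1) j * ((n : ℚ) + 1 - 2 * j) / (4 * ((n : ℚ) + 1 + j)) := by
    have h := H1 n j
    rw [eq_div_iff (by positivity)]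
    exact h
  have a3 : H (n + 2) (j + 1) = H (n + 2) j * ((2 * j + 1) * ((n : ℚ) + 3 + j) *
      ((n : ℚ) + 2 - 2 * j) * ((n : ℚ) + 1 - 2 * j)) / (8 * ((j : ℚ) + 1) ^ 4) := by
    have h := H2 (n + 2) j
    rw [eq_div_iff (by positivity)]
    push_cast at h
    rw [h]
    ring
  unfold GH
  rw [a0, a1, a3]
  push_cast
  have e1 : ((n : ℚ) + 1 + (j + 1)) = (n : ℚ) + 2 + j := by ring
  have e2 : ((n : ℚ) + 2 + (j + 1)) = (n : ℚ) + 3 + j := by ring
  rw [e1, e2]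
  field_simp
  ring

/-- The single sum. -/
def sing (n : ℕ) : ℚ := ∑ j ∈ range (n + 1), H n j

theorem sing_ext (n m : ℕ) (h : n ≤ m) : sing n = ∑ k ∈ range (m + 1), H n k := by
  unfold sing
  apply Finset.sum_subset
  · intro x hx
    simp only [mem_range] at hx ⊢
    omega
  · intro x _ hx
    simp only [mem_range, not_lt] at hx
    exact H_zero _ _ (by omega)

theorem recH (n : ℕ) :
    ((n : ℚ) + 2) ^ 3 * sing (n + 2)
      = 2 * (2 * (n : ℚ) + 3) * (5 * ((n : ℚ) + 1) ^ 2 + 5 * ((n : ℚ) + 1) + 2) * sing (n + 1)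
        - 64 * ((n : ℚ) + 1) ^ 3 * sing n := by
  have h : ∑ k ∈ range (n + 2 + 1), (64 * ((n : ℚ) + 1) ^ 3 * H n k
      - 2 * (2 * (n : ℚ) + 3) * (5 * ((n : ℚ) + 1) ^ 2 + 5 * ((n : ℚ) + 1) + 2) * H (n + 1) k
      + ((n : ℚ) + 2) ^ 3 * H (n + 2) k) = 0 := by
    rw [sum_congr rfl (fun k _ => keyH n k), sum_range_sub]
    have e1 : GH n (n + 2 + 1) = 0 := by
      unfold GH
      rw [H_zero _ _ (by omega)]
      simp
    have e2 : GH n 0 = 0 := by simp [GH]
    rw [e1, e2]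
    ring
  rw [sum_add_distrib, sum_sub_distrib, ← mul_sum, ← mul_sum, ← mul_sum,
    ← sing_ext n (n + 2) (by omega), ← sing_ext (n + 1) (n + 2) (by omega),
    ← sing_ext (n + 2) (n + 2) (by omega)] at h
  linarith

theorem domb_eq_sing (n : ℕ) : dombQ n = sing n := by
  induction n using Nat.strong_induction_on with
  | _ n ih =>
    rcases n with _ | _ | n
    · simp [dombQ, sing, F, H]
    · norm_num [dombQ, sing, F, H, sum_range_succ, Nat.centralBinom, Nat.choose]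
    · have h1 := rec n
      have h2 := recH n
      rw [ih (n + 1) (by omega), ih n (by omega), ← h2] at h1
      have h3 : ((n : ℚ) + 2) ^ 3 ≠ 0 := by positivity
      exact mul_left_cancel₀ h3 h1

end Pool.Agent.Helper484_Domb
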